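import Pool.Agent.CVH.Fin

set_option autoImplicit false

/-!
# The chromatic vanishing conjecture in degree one (MP_05d689_gt)

`k` is an algebraic closure of `ℤ/p`, `W = W(k)`, `A = W[[u_1, …, u_(n-1)]]`, `Γ` is a one-
dimensional formal group law of height `n` over `k`, `F` over `A` is a universal deformation of it,
and `G = (EndF Γ)ˣ` is the automorphism group of `Γ`. Then `G` acts on `A` (in exactly one way
compatible with `F`), and (structure `DegOne`)

* the invariants of `G` on `A / p` are the constants `k`;
* `H^1(G, W) → H^1(G, A)` is injective;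
* its cokernel has no `p`-torsion;
* `H^1(G, A / W)` has no `p`-torsion (even without the cocycle and continuity conditions);
* if every class of `H^1(G, A)` comes from `H^1(G, W)` after multiplication by a power of `p`
  (this is the rational theorem of Barthel, Schlank, Stapleton and Weinstein in degree one),
  then `H^1(G, W) → H^1(G, A)` is bijective.
-/

noncomputable section

namespace Pool.Agent.Results.MP_05d689_gt.DegreeOne

open Pool.Agent.CVH

theorem result (p : ℕ) [Fact p.Prime] (n : ℕ) (hn : 1 ≤ n) (Γ : FormalGroup (Kb p))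
    (ht : (mulSeries Γ p).order = ((p ^ n : ℕ) : ℕ∞)) (F : FormalGroup (Ab p n))
    (hF : IsUnivDef (WittVector.constantCoeff : Wb p →+* Kb p) (res p n) Γ F) :
    (∃! ρ : (EndF Γ)ˣ →* (Ab p n →+* Ab p n), IsLTAction MvPowerSeries.C (res p n) Γ F ρ) ∧
    ∀ (ρ : (EndF Γ)ˣ →* (Ab p n →+* Ab p n))
      (hρ : IsLTAction MvPowerSeries.C (res p n) Γ F ρ),
      DegOne p qc (Ideal.span {(p : Wb p)}) (IsLocalRing.maximalIdeal (Ab p n)) ρ
        MvPowerSeries.C map_C_le hρ.lin := by
  have hU := isUniversal_of hF
  refine ⟨⟨ltAction hU, isLTAction_ltAction hU, fun ρ hρ => eq_ltAction hU hρ⟩, ?_⟩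
  intro ρ hρ
  obtain rfl := eq_ltAction hU hρ
  exact degOne hU (invConst_all hn ht hU)

end Pool.Agent.Results.MP_05d689_gt.DegreeOne
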